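import Pool.Agent.Helper69.GU.Defs
import Pool.Agent.Helper74.GT.FLD

set_option autoImplicit false

/-! Module FLDU of the crew table `gu_mods`: the fields. -/

namespace Pool.Agent.Helper69.GU

open Polynomial
open Pool.Agent.Helper51.GT (Mat PMat fr Dat dg Zm Fil Cir flp Red gprod Zp Filp Circ tr4
  fld_roots fld_fr st_FLD)

/-- The roots of `X ^ n - 1`. -/
theorem fldu_pow_roots {K : Type} [Field K] [Finite K] (n : ℕ) (hn : 1 ≤ n) :
    Nat.card {x : K // x ^ n = 1} ≤ n := by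
  have hP : ((X : K[X]) ^ n - 1).natDegree = n := by
    have := natDegree_X_pow_sub_C (R := K) (n := n) (r := 1)
    simpa using this
  refine le_trans (fld_roots (X ^ n - 1) ?_ _ ?_) (le_of_eq hP)
  · intro h0
    rw [h0, natDegree_zero] at hP
    omega
  · intro x hx
    simp [hx]

/-- There is a non-zero element which is not a root of `X ^ m - 1` if `m + 1` is less than the
number of elements. -/
theorem fldu_exists {K : Type} [Field K] [Finite K] (m : ℕ) (hm : m + 1 < Nat.card K)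
    (h1 : 1 ≤ m) : ∃ x : K, x ≠ 0 ∧ x ^ m ≠ 1 := by
  by_contra hcon
  push Not at hcon
  have hP : ((X : K[X]) ^ (m + 1) + (-X)).natDegree = m + 1 := by
    rw [natDegree_add_eq_left_of_natDegree_lt]
    · exact natDegree_X_pow _
    · rw [natDegree_X_pow, natDegree_neg, natDegree_X]
      omega
  have h2 : Nat.card {x : K // True} ≤ m + 1 := by
    refine le_trans (fld_roots (X ^ (m + 1) + (-X)) ?_ _ ?_) (le_of_eq hP)
    · intro h0
      rw [h0, natDegree_zero] at hP
      omega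
    · intro x _
      rw [eval_add, eval_pow, eval_X, eval_neg, eval_X]
      by_cases hx : x = 0
      · rw [hx, zero_pow (by omega)]
        simp
      · rw [pow_succ, hcon x hx, one_mul, add_neg_cancel]
  have h3 : Nat.card {x : K // True} = Nat.card K :=
    Nat.card_congr (Equiv.subtypeUnivEquiv fun _ => trivial)
  omega

theorem st_FLDU : ST_FLDU := by
  intro r hr
  obtain ⟨K, iF, iK, φ, hD, hcard, hφ, -, htr⟩ := st_FLD r hr
  have hq2 : 2 ≤ 2 ^ r := by
    calc 2 = 2 ^ 1 := (pow_one 2).symm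
      _ ≤ 2 ^ r := Nat.pow_le_pow_right (by norm_num) hr
  have hfr := fld_fr φ (2 ^ r) hφ
  generalize hQ : 2 ^ r = q at *
  have q1 : 4 ≤ q ^ 2 := by nlinarith
  obtain ⟨s, hs⟩ : ∃ s, q ^ 2 = s + 1 := ⟨q ^ 2 - 1, by omega⟩
  have e4 : q ^ 4 = (s + 1) ^ 2 := by rw [← hs]; ring
  have e8 : q ^ 8 = s * ((s + 1) ^ 2 + 1) * (s + 2) + 1 := by
    have : q ^ 8 = (s + 1) ^ 4 := by rw [← hs]; ring
    rw [this]; ring
  have hm1 : 1 ≤ s * ((s + 1) ^ 2 + 1) := Nat.one_le_iff_ne_zero.2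
    (Nat.mul_ne_zero (by omega) (by positivity))
  have hm2 : s * ((s + 1) ^ 2 + 1) + 1 < Nat.card K := by
    rw [hcard, e8]
    have : s * ((s + 1) ^ 2 + 1) * 1 < s * ((s + 1) ^ 2 + 1) * (s + 2) :=
      Nat.mul_lt_mul_of_pos_left (by omega) hm1
    omega
  obtain ⟨x, hx0, hx1⟩ := fldu_exists (K := K) _ hm2 hm1
  have hxp : x ^ (s * ((s + 1) ^ 2 + 1) * (s + 2)) = 1 := by
    have := Fintype.ofFinite K
    have h1 := FiniteField.pow_card_sub_one_eq_one x hx0
    rw [← Nat.card_eq_fintype_card, hcard, e8, Nat.add_sub_cancel] at h1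
    exact h1
  refine ⟨K, iF, iK, φ, x ^ (s * ((s + 1) ^ 2 + 1)), hD, ⟨?_, hx1⟩, hcard, hφ, ?_, htr⟩
  · rw [hfr, hs, ← pow_succ', ← pow_mul]
    exact hxp
  · have h1 : ∀ y : K, y * fr φ 4 y = 1 → y ^ (q ^ 4 + 1) = 1 := by
      intro y hy
      rw [hfr] at hy
      rw [pow_succ', hy]
    have h2 : Nat.card {y : K // y * fr φ 4 y = 1} ≤ Nat.card {y : K // y ^ (q ^ 4 + 1) = 1} :=
      Nat.card_le_card_of_injective (fun y => ⟨y.1, h1 y.1 y.2⟩) (by
        intro y z hyz
        exact Subtype.ext (Subtype.mk.inj hyz))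
    have h3 := fldu_pow_roots (K := K) (q ^ 4 + 1) (by omega)
    have h4 : 1 ≤ q ^ 4 := Nat.one_le_pow _ _ (by omega)
    omega

end Pool.Agent.Helper69.GU
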