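import Pool.Agent.Helper69.GU.Defs
import Pool.Agent.Helper72.GT.FLIP

set_option autoImplicit false

/-! Module FLU of the crew table `gu_mods`: the flip is an anti-homomorphism. -/

namespace Pool.Agent.Helper69.GU

open Polynomial
open Pool.Agent.Helper51.GT (Mat PMat fr Dat dg Zm Fil Cir flp Red gprod Zp Filp Circ tr4
  flip_natDegree_le flipHom flipHom_apply flip_det_reflect flip_det_coeff)

theorem st_FLU : ST_FLU := by
  intro K _ m n M N hM hN
  have dM : ∀ r c : Fin 4, (M r c).natDegree ≤ m := fun r c => flip_natDegree_le (hM r c)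
  have dN : ∀ r c : Fin 4, (N r c).natDegree ≤ n := fun r c => flip_natDegree_le (hN r c)
  refine ⟨?_, ?_, ?_, ?_⟩
  · ext1 r c
    show Polynomial.reflect (m + n) ((M * N) c r) = _
    rw [Matrix.mul_apply, Matrix.mul_apply, ← flipHom_apply, map_sum]
    refine Finset.sum_congr rfl fun k _ => ?_
    rw [flipHom_apply, Polynomial.reflect_mul _ _ (dM _ _) (dN _ _), mul_comm]
    rfl
  · intro r c s hs
    rw [Matrix.mul_apply, Polynomial.finsetSum_coeff]
    refine Finset.sum_eq_zero fun k _ => ?_
    refine Polynomial.coeff_eq_zero_of_natDegree_lt (lt_of_le_of_lt ?_ hs)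
    exact le_trans Polynomial.natDegree_mul_le (Nat.add_le_add (dM _ _) (dN _ _))
  · exact flip_det_reflect M dM
  · intro s hs
    exact flip_det_coeff M dM s hs

end Pool.Agent.Helper69.GU
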