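import Pool.Agent.Helper9.GU.FLPU
import Pool.Agent.Helper23.GT.PROD

set_option autoImplicit false

/-! Module PRODU of the crew table `gu_mods`: words. -/

namespace Pool.Agent.Helper69.GU

open Polynomial
open Pool.Agent.Helper51.GT (Mat PMat fr Dat dg Zm Fil Cir flp Red gprod Zp Filp Circ tr4
  prod_cir_one mata_cir_mul)

theorem produ_fl_zero {K : Type} [Field K] : fl 0 (1 : Mat K) = 1 := by
  have e1 : reflect 0 (1 : K[X]) = 1 := by
    rw [reflect_one, pow_zero]
  have h := flpu_fl_smul 0 (1 : K[X])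
  rw [one_smul, e1, one_smul] at h
  exact h

theorem st_PRODU (hM : ST_MATU) (hA : ST_ADJU) (hL : ST_FLPU) (hF : ST_FLU) : ST_PRODU := by
  intro K _ φ ρ h hρ a b ha hb j
  induction j with
  | zero =>
    refine ⟨?_, ?_, ?_, ?_, ?_⟩
    · simp [wd, wr]
    · simp [wd]
    · intro r c s hs
      rw [wd, Matrix.one_apply]
      split_ifs
      · rw [coeff_one, if_neg (by omega)]
      · simp
    · rw [wd, wr, Nat.mul_zero, produ_fl_zero, one_mul, mul_one]
    · rw [wd]; exact prod_cir_one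
  | succ n ih =>
    obtain ⟨i1, i2, i3, i4, i5⟩ := ih
    obtain ⟨a1, a2, a3⟩ := hM K φ ρ h hρ (a n) (ha n)
    obtain ⟨b1, b2, b3⟩ := hM K φ ρ h hρ (b n) (hb n)
    have m1 := hL K φ ρ h hρ (a n) (ha n) (b n) (hb n)
    have m2 : ∀ (r c : Fin 4) (s : ℕ), 2 < s →
        ((th φ ρ (a n) * ad φ ρ (b n)) r c).coeff s = 0 :=
      flpu_deg (flpu_mul (hA K φ ρ (a n)).1 (hA K φ ρ (b n)).2) (by norm_num)
    have taad : th φ ρ (a n) * ad φ ρ (a n) = (Pw ρ) • (1 : Mat K) := by
      rw [ad, Matrix.mul_adjugate, a1]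
    have adtb : ad φ ρ (b n) * th φ ρ (b n) = (Pw ρ) • (1 : Mat K) := by
      rw [ad, Matrix.adjugate_mul, b1]
    have dadb : (ad φ ρ (b n)).det = (Pw ρ) ^ 3 := by
      rw [ad, Matrix.det_adjugate, b1, Fintype.card_fin]
    obtain ⟨f1, f2, f3, f4⟩ := hF K (2 * n) 2 (wd φ ρ a b n) (th φ ρ (a n) * ad φ ρ (b n)) i3 m2
    refine ⟨?_, ?_, ?_, ?_, ?_⟩
    · rw [wd, wr]
      calc wd φ ρ a b n * (th φ ρ (a n) * ad φ ρ (b n)) *
            (th φ ρ (b n) * ad φ ρ (a n) * wr φ ρ a b n)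
          = wd φ ρ a b n * (th φ ρ (a n) * ((ad φ ρ (b n) * th φ ρ (b n)) * ad φ ρ (a n))) *
              wr φ ρ a b n := by
            simp only [mul_assoc]
        _ = ((Pw ρ) * (Pw ρ)) • (wd φ ρ a b n * wr φ ρ a b n) := by
            rw [adtb, Matrix.smul_mul, one_mul, Matrix.mul_smul, taad, smul_smul, Matrix.mul_smul,
              mul_one, Matrix.smul_mul]
        _ = _ := by
            rw [i1, smul_smul]
            congr 1
            ring
    · rw [wd, Matrix.det_mul, Matrix.det_mul, i2, a1, dadb]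
      ring
    · intro r c s hs
      rw [wd]
      exact f2 r c s (by omega)
    · have e : 2 * (n + 1) = 2 * n + 2 := by ring
      rw [wd, wr, e, f1, mul_assoc (fl 2 (th φ ρ (a n) * ad φ ρ (b n))), i4, ← mul_assoc, m1,
        mul_assoc]
    · rw [wd]
      exact mata_cir_mul i5 (mata_cir_mul a2 b3)

end Pool.Agent.Helper69.GU
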