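import Pool.Agent.Helper9.GU.FLPU
import Pool.Agent.Helper23.GT.REL
import Pool.Agent.Helper74.GT.DIV
import Pool.Agent.Helper92.GT.ORD

set_option autoImplicit false

/-! Module RELU of the crew table `gu_mods`: a short reduced word is not congruent to `P^j`. -/

namespace Pool.Agent.Helper69.GU

open Polynomial
open Pool.Agent.Helper51.GT (Mat PMat fr Dat dg Zm Fil Cir flp Red gprod Zp Filp Circ tr4
  rel_cir_sub st_DIV st_ORD)

variable {K : Type} [Field K] {φ : K ≃+* K}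

theorem relu_map {ρ : K} (h : Rho φ ρ) (j : ℕ) :
    ((Pw ρ : K[X]) ^ j).map (fr φ 2) = (Pw ρ) ^ j := by
  have h1 : fr φ 2 ρ = ρ⁻¹ := (inv_eq_of_mul_eq_one_right h.mul).symm
  have h2 : fr φ 2 ρ⁻¹ = ρ := by rw [map_inv₀, h1, inv_inv]
  have h3 : fr φ 2 (ρ ^ 2) = ρ⁻¹ ^ 2 := by rw [map_pow, h1]
  have h4 : fr φ 2 (ρ⁻¹ ^ 2) = ρ ^ 2 := by rw [map_pow, h2]
  rw [Polynomial.map_pow]
  congr 1
  unfold Pw
  rw [Polynomial.map_mul, Polynomial.map_add, Polynomial.map_add, Polynomial.map_X,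
    Polynomial.map_C, Polynomial.map_C, h3, h4, mul_comm]

theorem relu_cir_smul {ρ : K} (h : Rho φ ρ) (j : ℕ) : Cir φ (((Pw ρ : K[X]) ^ j) • (1 : Mat K)) := by
  unfold Cir
  have e : (((Pw ρ : K[X]) ^ j) • (1 : Mat K)).map (Polynomial.map (fr φ 2)) =
      ((Pw ρ : K[X]) ^ j) • (1 : Mat K) := by
    refine Matrix.ext fun r c => ?_
    by_cases hrc : r = c
    · subst hrc
      rw [Matrix.map_apply, Matrix.smul_apply, Matrix.one_apply_eq, smul_eq_mul, mul_one,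
        relu_map h]
    · rw [Matrix.map_apply, Matrix.smul_apply, Matrix.one_apply_ne hrc, smul_eq_mul, mul_zero,
        Polynomial.map_zero]
  rw [e, Matrix.smul_mul, one_mul, Matrix.mul_smul, mul_one]

theorem st_RELU (hD : ST_DVU) (hR : ST_RNKU) (hS : ST_SYMU) (hV : ST_VANU) (hP : ST_PRODU) :
    ST_RELU := by
  intro K _ φ ρ h hρ a b ha hb d j hj hjd hred hfil
  obtain ⟨-, r, c, hrc⟩ := hR K φ ρ h hρ a b ha hb j hj hred
  have hdiv := hD K φ ρ h hρ a b ha hb j hj hred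
  have hlow : ∀ t, t < d →
      (wd φ ρ a b j - ((Pw ρ) ^ j) • (1 : Mat K)).det.coeff t = 0 :=
    fun t ht => st_ORD K d t _ hfil ht
  have hp := hV K ρ _ j d (flpu_rho_ne hρ) hjd hdiv hlow (hS K φ ρ h hρ a b ha hb j)
  have hcir : Cir φ (wd φ ρ a b j - ((Pw ρ) ^ j) • (1 : Mat K)) :=
    rel_cir_sub (hP K φ ρ h hρ a b ha hb j).2.2.2.2 (relu_cir_smul hρ j)
  have hz : wd φ ρ a b j - ((Pw ρ) ^ j) • (1 : Mat K) = 0 := by
    by_contra hne
    exact st_DIV K φ _ hcir hne hp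
  apply hrc
  rw [sub_eq_zero.mp hz]
  have h2 : (ρ⁻¹ ^ 2 : K) + ρ⁻¹ ^ 2 = 0 := by
    have := h.two
    linear_combination (ρ⁻¹ ^ 2) * this
  have h3 : (Pw ρ : K[X]).eval (ρ⁻¹ ^ 2) = 0 := by
    unfold Pw
    rw [eval_mul, eval_add, eval_add, eval_X, eval_C, eval_C, h2, mul_zero]
  rw [Matrix.smul_apply, smul_eq_mul, eval_mul, eval_pow, h3, zero_pow (by omega), zero_mul]

end Pool.Agent.Helper69.GU
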