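import Pool.Agent.Helper9.GU.FLPU
import Pool.Agent.Helper9.GT.DETS

set_option autoImplicit false

/-! Module SYMU of the crew table `gu_mods`: symmetry of the determinant of `W - P^j`. -/

namespace Pool.Agent.Helper69.GU

open Polynomial
open Pool.Agent.Helper51.GT (Mat PMat fr Dat dg Zm Fil Cir flp Red gprod Zp Filp Circ tr4
  st_DETS)

theorem symu_natDegree {K : Type} [Field K] (ρ : K) (j : ℕ) :
    ((Pw ρ : K[X]) ^ j).natDegree ≤ 2 * j := by
  calc ((Pw ρ : K[X]) ^ j).natDegree ≤ j * (Pw ρ : K[X]).natDegree :=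
        Polynomial.natDegree_pow_le
    _ ≤ j * 2 := Nat.mul_le_mul_left _ (flpu_P_deg ρ)
    _ = 2 * j := Nat.mul_comm _ _

theorem symu_reflect {K : Type} [Field K] {ρ : K} (h : ρ ≠ 0) (j : ℕ) :
    Polynomial.reflect (2 * j) ((Pw ρ : K[X]) ^ j) = (Pw ρ) ^ j := by
  induction j with
  | zero => rw [Nat.mul_zero, pow_zero, reflect_one, pow_zero]
  | succ j ih =>
    have e : 2 * (j + 1) = 2 * j + 2 := by ring
    rw [pow_succ, e, Polynomial.reflect_mul _ _ (symu_natDegree ρ j) (flpu_P_deg ρ), ih,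
      flpu_reflect_P h]

theorem symu_fl_sub {K : Type} [Field K] (n : ℕ) (M N : Mat K) :
    fl n (M - N) = fl n M - fl n N := by
  refine Matrix.ext fun i j => ?_
  unfold fl
  rw [Matrix.of_apply, Matrix.sub_apply, Matrix.sub_apply, Polynomial.reflect_sub,
    Matrix.of_apply, Matrix.of_apply]

theorem st_SYMU (hP : ST_PRODU) (hF : ST_FLU) (hU : ST_UNIU) : ST_SYMU := by
  intro K _ φ ρ h hρ a b ha hb j t
  obtain ⟨p1, p2, p3, p4, -⟩ := hP K φ ρ h hρ a b ha hb j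
  obtain ⟨hH, -⟩ := hU K φ ρ h hρ
  have hs : ((Pw ρ : K[X]) ^ j) ≠ 0 := pow_ne_zero _ (flpu_P_ne ρ)
  have hdet := st_DETS K[X] (wd φ ρ a b j) (wr φ ρ a b j) ((Pw ρ) ^ j) hs p1 p2
  have hc : ∀ (r c : Fin 4) (s : ℕ), 2 * j < s →
      ((wd φ ρ a b j - ((Pw ρ) ^ j) • (1 : Mat K)) r c).coeff s = 0 := by
    intro r c s hs
    rw [Matrix.sub_apply, Matrix.smul_apply, smul_eq_mul, Polynomial.coeff_sub, p3 r c s hs]
    by_cases h : r = c
    · subst h
      rw [Matrix.one_apply_eq, mul_one,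
        Polynomial.coeff_eq_zero_of_natDegree_lt (lt_of_le_of_lt (symu_natDegree ρ j) hs),
        sub_zero]
    · rw [Matrix.one_apply_ne h, mul_zero, Polynomial.coeff_zero, sub_zero]
  obtain ⟨_, _, f3, f4⟩ := hF K (2 * j) (2 * j) _ _ hc hc
  have key : fl (2 * j) (wd φ ρ a b j - ((Pw ρ) ^ j) • (1 : Mat K)) * Hm φ ρ =
      Hm φ ρ * (wr φ ρ a b j - ((Pw ρ) ^ j) • (1 : Mat K)) := by
    rw [symu_fl_sub, flpu_fl_smul, symu_reflect (flpu_rho_ne hρ), Matrix.sub_mul, Matrix.mul_sub,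
      p4, Matrix.smul_mul, Matrix.one_mul, Matrix.mul_smul, Matrix.mul_one]
  have key2 := congrArg Matrix.det key
  rw [Matrix.det_mul, Matrix.det_mul, f3, hdet, mul_comm] at key2
  have key3 := mul_left_cancel₀ hH key2
  have e8 : 4 * (2 * j) = 8 * j := by ring
  rw [e8] at key3 f4
  by_cases ht : t ≤ 8 * j
  · rw [if_pos ht]
    have h1 := congrArg (fun p : K[X] => p.coeff t) key3
    rw [Polynomial.coeff_reflect, Polynomial.revAt_le ht] at h1
    exact h1.symm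
  · rw [if_neg ht]
    exact f4 t (not_le.1 ht)

end Pool.Agent.Helper69.GU
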