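import Pool.Agent.Helper69.GU.Defs
import Pool.Agent.Helper72.GT.FLIP

set_option autoImplicit false

/-! Module FLPU of the crew table `gu_mods`: unitarity for one letter of a word. -/

namespace Pool.Agent.Helper69.GU

open Polynomial
open Pool.Agent.Helper51.GT (Mat PMat fr Dat dg Zm Fil Cir flp Red gprod Zp Filp Circ tr4
  flip_natDegree_le)

/-- The upper filtration is multiplicative. -/
theorem flpu_mul {K : Type} [Field K] {d e : ℕ} {M N : Mat K} (hM : FilU d M) (hN : FilU e N) :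
    FilU (d + e) (M * N) := by
  intro i j s hs
  rw [Matrix.mul_apply, Polynomial.finsetSum_coeff]
  refine Finset.sum_eq_zero fun k _ => ?_
  rw [Polynomial.coeff_mul]
  refine Finset.sum_eq_zero fun p hp => ?_
  have h1 : p.1 + p.2 = s := Finset.HasAntidiagonal.mem_antidiagonal.1 hp
  by_cases h2 : d + (i : ℕ) < 4 * p.1 + (k : ℕ)
  · rw [hM i k p.1 h2, zero_mul]
  · rw [hN k j p.2 (by omega), mul_zero]

theorem flpu_deg {K : Type} [Field K] {d n : ℕ} {M : Mat K} (hM : FilU d M) (hd : d ≤ 4 * n) :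
    ∀ (r c : Fin 4) (s : ℕ), n < s → (M r c).coeff s = 0 := by
  intro r c s hs
  have h1 : (r : ℕ) < 4 := r.isLt
  exact hM r c s (by omega)

theorem flpu_P_ne {K : Type} [Field K] (ρ : K) : (Pw ρ : K[X]) ≠ 0 :=
  mul_ne_zero (X_add_C_ne_zero _) (X_add_C_ne_zero _)

theorem flpu_deg_one {K : Type} [Field K] (c : K) : (X + C c : K[X]).natDegree ≤ 1 := by
  refine le_trans (natDegree_add_le _ _) ?_
  simp

theorem flpu_P_deg {K : Type} [Field K] (ρ : K) : (Pw ρ : K[X]).natDegree ≤ 2 :=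
  le_trans natDegree_mul_le (add_le_add (flpu_deg_one _) (flpu_deg_one _))

theorem flpu_reflect_lin {K : Type} [Field K] (c : K) :
    Polynomial.reflect 1 (X + C c : K[X]) = 1 + C c * X := by
  rw [reflect_add, reflect_one_X, reflect_C, pow_one]

theorem flpu_reflect_P {K : Type} [Field K] {ρ : K} (h : ρ ≠ 0) :
    Polynomial.reflect 2 (Pw ρ) = Pw ρ := by
  have e : Polynomial.reflect (1 + 1) (Pw ρ) =
      Polynomial.reflect 1 (X + C (ρ ^ 2)) * Polynomial.reflect 1 (X + C (ρ⁻¹ ^ 2)) :=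
    reflect_mul _ _ (flpu_deg_one _) (flpu_deg_one _)
  have e1 : (1 : ℕ) + 1 = 2 := rfl
  rw [← e1, e, flpu_reflect_lin, flpu_reflect_lin]
  have h1 : (C (ρ ^ 2) : K[X]) * C (ρ⁻¹ ^ 2) = 1 := by
    rw [← C_mul, ← mul_pow, mul_inv_cancel₀ h, one_pow, C_1]
  unfold Pw
  linear_combination (X * X - 1) * h1

theorem flpu_reflect_succ {K : Type} [Field K] (n : ℕ) (p : K[X]) (hp : p.natDegree ≤ n) :
    Polynomial.reflect (1 + n) p = X * Polynomial.reflect n p := by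
  have h : Polynomial.reflect (1 + n) (1 * p) =
      Polynomial.reflect 1 1 * Polynomial.reflect n p :=
    reflect_mul _ _ (by simp) hp
  rw [one_mul, reflect_one, pow_one] at h
  exact h

theorem flpu_fl_smul {K : Type} [Field K] (n : ℕ) (p : K[X]) :
    fl n (p • (1 : Mat K)) = (Polynomial.reflect n p) • (1 : Mat K) := by
  refine Matrix.ext fun i j => ?_
  unfold fl
  rw [Matrix.of_apply, Matrix.smul_apply, Matrix.smul_apply, smul_eq_mul, smul_eq_mul]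
  by_cases hij : i = j
  · subst hij
    rw [Matrix.one_apply_eq, mul_one, mul_one]
  · rw [Matrix.one_apply_ne hij, Matrix.one_apply_ne (Ne.symm hij), mul_zero, mul_zero,
      reflect_zero]

theorem flpu_smul_cancel {K : Type} [Field K] {p : K[X]} (hp : p ≠ 0) {M N : Mat K}
    (h : p • M = p • N) : M = N := by
  refine Matrix.ext fun i j => ?_
  have h1 := congrFun (congrFun h i) j
  rw [Matrix.smul_apply, Matrix.smul_apply, smul_eq_mul, smul_eq_mul] at h1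
  exact mul_left_cancel₀ hp h1

theorem flpu_rho_ne {K : Type} [Field K] {φ : K ≃+* K} {ρ : K} (h : Rho φ ρ) : ρ ≠ 0 := by
  intro h0
  have h1 := h.mul
  rw [h0, zero_mul] at h1
  exact zero_ne_one h1

theorem st_FLPU (hU : ST_UNIU) (hA : ST_ADJU) (hM : ST_MATU) (hF : ST_FLU) : ST_FLPU := by
  intro K _ φ ρ hφ hρ a ha b hb
  have hρ0 := flpu_rho_ne hρ
  obtain ⟨-, hu⟩ := hU K φ ρ hφ hρ
  obtain ⟨tb1, ab1⟩ := hA K φ ρ b
  obtain ⟨ta1, -⟩ := hA K φ ρ a
  obtain ⟨da, -, -⟩ := hM K φ ρ hφ hρ a ha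
  obtain ⟨db, -, -⟩ := hM K φ ρ hφ hρ b hb
  have taad : th φ ρ a * ad φ ρ a = (Pw ρ) • (1 : Mat K) := by
    rw [ad, Matrix.mul_adjugate, da]
  have tbad : th φ ρ b * ad φ ρ b = (Pw ρ) • (1 : Mat K) := by
    rw [ad, Matrix.mul_adjugate, db]
  have e1 := (hF K 1 2 (th φ ρ b) (ad φ ρ b) (flpu_deg tb1 (by norm_num))
    (flpu_deg ab1 (by norm_num))).1
  have e2 := (hF K 1 2 (th φ ρ a) (ad φ ρ b) (flpu_deg ta1 (by norm_num))
    (flpu_deg ab1 (by norm_num))).1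
  rw [tbad, flpu_fl_smul, flpu_reflect_succ 2 _ (flpu_P_deg ρ), flpu_reflect_P hρ0] at e1
  have e3 : fl (1 + 2) (th φ ρ a * ad φ ρ b) = (X : K[X]) • fl 2 (th φ ρ a * ad φ ρ b) := by
    refine Matrix.ext fun i j => ?_
    have hd : ((th φ ρ a * ad φ ρ b) j i).natDegree ≤ 2 :=
      flip_natDegree_le (flpu_deg (flpu_mul ta1 ab1) (by norm_num) j i)
    exact flpu_reflect_succ 2 _ hd
  rw [e3] at e2
  have u1 : fl 1 (th φ ρ a) * Hm φ ρ * th φ ρ a * ad φ ρ a =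
      ((X : K[X]) • Hn φ ρ) * ad φ ρ a := by rw [hu a ha]
  have u2 : fl 2 (ad φ ρ b) * (fl 1 (th φ ρ b) * Hm φ ρ * th φ ρ b) =
      fl 2 (ad φ ρ b) * ((X : K[X]) • Hn φ ρ) := by rw [hu b hb]
  rw [mul_assoc, taad, Matrix.mul_smul, mul_one, Matrix.smul_mul] at u1
  rw [← mul_assoc, ← mul_assoc, ← e1, Matrix.smul_mul, one_mul, Matrix.smul_mul,
    Matrix.mul_smul] at u2
  refine flpu_smul_cancel (p := X * Pw ρ) (mul_ne_zero X_ne_zero (flpu_P_ne ρ)) ?_
  calc (X * Pw ρ) • (fl 2 (th φ ρ a * ad φ ρ b) * Hm φ ρ)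
      = (Pw ρ) • (((X : K[X]) • fl 2 (th φ ρ a * ad φ ρ b)) * Hm φ ρ) := by
        rw [Matrix.smul_mul, smul_smul, mul_comm]
    _ = fl 2 (ad φ ρ b) * ((Pw ρ) • (fl 1 (th φ ρ a) * Hm φ ρ)) := by
        rw [e2, Matrix.mul_smul, mul_assoc]
    _ = ((X : K[X]) • (fl 2 (ad φ ρ b) * Hn φ ρ)) * ad φ ρ a := by
        rw [u1, Matrix.mul_smul, Matrix.smul_mul, mul_assoc]
    _ = (X * Pw ρ) • (Hm φ ρ * (th φ ρ b * ad φ ρ a)) := by
        rw [← u2, Matrix.smul_mul, mul_assoc]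

end Pool.Agent.Helper69.GU
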